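import Pool.Agent.H44.GT.Targets
import Pool.Agent.H44.DU.Basic2
import Pool.Agent.H19.DU.OP

/-!
# M_HYO: the set of the slopes with a hyperbolic closed leaf is open
-/

set_option autoImplicit false

open Pool.Agent.H44.DU Filter Topology

namespace Pool.Agent.H94.GD

variable {n : ℕ}

/-- the word of the first `k` letters -/
def W (s : ℕ → Side n) (k : ℕ) : List (Side n) := (List.range k).map s

theorem W_succ (s : ℕ → Side n) (k : ℕ) : W s (k + 1) = W s k ++ [s k] := by
  simp [W, List.range_succ]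

theorem W_take (s : ℕ → Side n) {j k : ℕ} (h : j ≤ k) : (W s k).take j = W s j := by
  rw [W, W, ← List.map_take, List.take_range, min_eq_left h]

theorem pf_M_HYO : M_HYO := by
  intro n S
  rw [isOpen_iff_mem_nhds]
  rintro t ⟨m, y, hcyc, hprod⟩
  have hm := hcyc.1
  set s : ℕ → Side n := fun k => (y (k % m)).1 with hs
  have hchain := (S.cyc_chain hcyc).1
  have hrun : ∀ K : ℕ, S.Run t (W s K) (y 0).2 ∧ S.g t (W s K) (y 0).2 = (y (K % m)).2 ∧
      S.A (W s K) = ∏ j ∈ Finset.range K, S.a (y (j % m)).1 := by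
    intro K
    have := S.chain_run (y := fun k => y (k % m)) hchain 0 K
    simp only [zero_add, Nat.zero_mod] at this
    exact this
  have hprod' : ∏ j ∈ Finset.range m, S.a (y (j % m)).1 = ∏ j ∈ Finset.range m, S.a (y j).1 :=
    Finset.prod_congr rfl fun j hj => by rw [Nat.mod_eq_of_lt (Finset.mem_range.1 hj)]
  have hA : S.A (W s m) ≠ 1 := by
    rw [(hrun m).2.2, hprod']; exact hprod
  have hA' : 1 - S.A (W s m) ≠ 0 := sub_ne_zero.2 (Ne.symm hA)
  set x' : ℝ → ℝ := fun u => xi u (S.B (W s m)) / (1 - S.A (W s m)) with hx'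
  have hfix : ∀ u, S.g u (W s m) (x' u) = x' u := by
    intro u
    simp only [Surf.g, hx']
    field_simp
    ring
  have hx0 : x' t = (y 0).2 := by
    have h1 := (hrun m).2.1
    rw [Nat.mod_self] at h1
    simp only [Surf.g] at h1
    simp only [hx']
    rw [div_eq_iff hA']
    linarith
  have hcont : Continuous fun u : ℝ => (u, x' u) := by
    refine continuous_id.prodMk ?_
    simp only [hx', xi]
    fun_prop
  have hopen : IsOpen {u : ℝ | S.Run u (W s (m + 1)) (x' u)} :=
    (Pool.Agent.H19.DU.OP.gw_open S (W s (m + 1))).preimage hcont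
  have hmem : t ∈ {u : ℝ | S.Run u (W s (m + 1)) (x' u)} := by
    show S.Run t (W s (m + 1)) (x' t)
    rw [hx0]; exact (hrun (m + 1)).1
  refine mem_of_superset (hopen.mem_nhds hmem) ?_
  intro u hu
  have hu' : S.Run u (W s (m + 1)) (x' u) := hu
  refine ⟨m, fun k => (s k, S.g u (W s k) (x' u)), ⟨hm, ?_, ?_⟩, ?_⟩
  · intro k hk
    have h1 := S.run_take hu' (k + 2)
    rw [W_take s (by omega), W_succ, W_succ, S.run_snoc] at h1
    obtain ⟨h2, h3, h4⟩ := h1
    have h5 := (S.run_append _ _ _ _).1 h2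
    refine ⟨(S.run_single _ _ _).1 h5.2.2, ?_, h3, ?_⟩
    · show S.InJ u (s (k + 1)) (S.g u (W s (k + 1)) (x' u))
      rw [W_succ]; exact h4
    · show S.g u (W s (k + 1)) (x' u) = S.mv u (s k) (S.g u (W s k) (x' u))
      rw [W_succ, S.g_append, S.g_single]
  · refine Prod.ext ?_ ?_
    · show s m = s 0
      simp [hs]
    · show S.g u (W s m) (x' u) = S.g u (W s 0) (x' u)
      rw [hfix]
      simp [W, S.g_nil]
  · show ∏ k ∈ Finset.range m, S.a (s k) ≠ 1
    rw [show ∏ k ∈ Finset.range m, S.a (s k) = ∏ j ∈ Finset.range m, S.a (y j).1 from hprod']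
    exact hprod

end Pool.Agent.H94.GD
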